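import Pool.Agent.Mg.Ff49c72.G0ee657

namespace Pool.Agent.MP_f49c72_ag.Old.AffineNo

open Pool.Agent.MP_f49c72_ag

universe u

/-- Two distinct components of a Hilbert scheme of points on affine space containing the same
monomial ideals. -/
theorem result (k : Type u) [Field k] [IsAlgClosed k] (h3 : ringChar k ≠ 3)
    (hk : ringChar k = 0 ∨ ringChar k % 7 = 3 ∨ ringChar k % 7 = 5 ∨ ringChar k % 7 = 6) :
    ∃ n d : ℕ, ∃ Z₁ ∈ irreducibleComponents (HilbA k n d),
      ∃ Z₂ ∈ irreducibleComponents (HilbA k n d), Z₁ ≠ Z₂ ∧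
        {I ∈ Z₁ | IsMonomialIdeal I.ideal} = {I ∈ Z₂ | IsMonomialIdeal I.ideal} :=
  mainA k h3 hk

end Pool.Agent.MP_f49c72_ag.Old.AffineNo
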