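import Pool.Agent.Mg.Ff49c72.G14fb2b

namespace Pool.Agent.MP_f49c72_ag.Old.ProjectiveNo

open Pool.Agent.MP_f49c72_ag

universe u

/-- Two distinct components of a Hilbert scheme of projective space containing the same
saturated monomial ideals. -/
theorem result (k : Type u) [Field k] [IsAlgClosed k] (h3 : ringChar k ≠ 3)
    (hk : ringChar k = 0 ∨ ringChar k % 7 = 3 ∨ ringChar k % 7 = 5 ∨ ringChar k % 7 = 6) :
    ∃ (n : ℕ) (P : Polynomial ℚ), ∀ m ≥ 2,
      ∃ Z₁ ∈ @irreducibleComponents _ (zariskiP k n P m),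
      ∃ Z₂ ∈ @irreducibleComponents _ (zariskiP k n P m), Z₁ ≠ Z₂ ∧
        {I ∈ Z₁ | IsMonomialIdeal I.ideal} = {I ∈ Z₂ | IsMonomialIdeal I.ideal} :=
  mainP k h3 hk

end Pool.Agent.MP_f49c72_ag.Old.ProjectiveNo
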